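import Mathlib
import Pool.Agent.Lib.MP_9ae5d9_al.Defs
import Pool.Agent.Lib.MP_9ae5d9_al.Large

/-!
The bound `Conj(n) ≤ (E n)^(E n)` for `R ≀ ℤ^k`, where `R` is an integral domain whose additive
group is finitely generated.
-/

set_option autoImplicit false

namespace Pool.Agent.Lib.MP_9ae5d9_al.U

open Pool.Agent.Lib.MP_9ae5d9_al

variable {k : ℕ}

/-- As `conjDepth_le`, with separating fields of polynomial size. -/
theorem conjDepth_le_poly {R : Type} [AddCommGroup R] {ν : R → ℕ} (h0 : ν 0 = 0)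
    (hν : ∀ a b, ν (a + b) ≤ ν a + ν b) (C₀ e : ℕ)
    (hK : ∀ N, 1 ≤ N → ∃ (K : Type) (_ : Field K) (_ : Fintype K) (ι : R →+ K),
      N < Fintype.card K ∧ Fintype.card K ≤ (C₀ * N) ^ e ∧
        ∀ a b, ν a + ν b ≤ N → ι a = ι b → a = b)
    (S : Finset (Wreath R k)) :
    ∃ E : ℕ, ∀ n, 1 ≤ n → conjDepth S n ≤ (((E * n) ^ (E * n) : ℕ) : ℕ∞) := by
  obtain ⟨C, hC1, hC⟩ := exists_small_ball h0 hν S
  obtain ⟨A, hA1, hA2, hA3⟩ : ∃ A : ℕ, 9 * C₀ ≤ A ∧ 21 * e ≤ A ∧ 3 ≤ A :=
    ⟨9 * C₀ + 21 * e + 3, by omega, by omega, by omega⟩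
  refine ⟨A * C, fun n hn => ?_⟩
  apply sSup_le
  rintro _ ⟨g, h, hg, hh, hnc, rfl⟩
  have sg := hC n g hg
  have sh' := hC n h hh
  rw [mul_assoc]
  generalize hr : C * n = r at *
  have hr1 : 1 ≤ r := by rw [← hr]; exact Nat.mul_pos hC1 hn
  have hr3 : r ≤ r ^ 3 := Nat.le_self_pow (by norm_num) r
  have hbase : 1 ≤ A * r := Nat.mul_pos (by omega) hr1
  by_cases hpos : pos h = pos g
  · obtain ⟨K, _, _, ι, hK1, hK2, hι⟩ := hK (8 * r ^ 3 + 1) (by omega)
    refine (depth_le_of_field ι g h r hr1 hpos sg.pos_le sg.supp_le sh'.supp_le ?_ hK1 hnc).trans ?_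
    · intro B Φ p q
      apply hι
      have := sg.mass_le B Φ q
      have := sh'.mass_le B Φ p
      omega
    · norm_cast
      have h1 : Fintype.card K ≤ ((A * r) ^ 3) ^ e := by
        refine hK2.trans (Nat.pow_le_pow_left ?_ _)
        have h2 : A ≤ A ^ 3 := Nat.le_self_pow (by norm_num) _
        calc C₀ * (8 * r ^ 3 + 1) ≤ C₀ * (9 * r ^ 3) := Nat.mul_le_mul_left _ (by omega)
          _ = (9 * C₀) * r ^ 3 := by ring
          _ ≤ A ^ 3 * r ^ 3 := Nat.mul_le_mul_right _ (by omega)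
          _ = (A * r) ^ 3 := by ring
      have h3 : 3 * e * (3 * r + 4) ≤ A * r :=
        calc 3 * e * (3 * r + 4) ≤ 3 * e * (7 * r) := Nat.mul_le_mul_left _ (by omega)
          _ = 21 * e * r := by ring
          _ ≤ A * r := Nat.mul_le_mul_right _ hA2
      calc Fintype.card K ^ (3 * r + 4) ≤ (((A * r) ^ 3) ^ e) ^ (3 * r + 4) :=
            Nat.pow_le_pow_left h1 _
        _ = (A * r) ^ (3 * e * (3 * r + 4)) := by rw [← pow_mul, ← pow_mul, mul_assoc]
        _ ≤ _ := Nat.pow_le_pow_right hbase h3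
  · refine (depth_le_of_pos_ne g h r hpos sg.pos_le sh'.pos_le).trans ?_
    norm_cast
    refine le_trans ?_ (Nat.le_self_pow (by omega) _)
    nlinarith

/-- A finite dimensional `𝔽_q`-space embeds additively in every large enough field `𝔽_(q^j)`. -/
theorem exists_embed (q : ℕ) [Fact q.Prime] (V : Type) [AddCommGroup V] [Module (ZMod q) V]
    [Module.Finite (ZMod q) V] (j : ℕ) (hj0 : j ≠ 0) (hj : Module.finrank (ZMod q) V ≤ j) :
    ∃ (K : Type) (_ : Field K) (_ : Fintype K) (ι : V →+ K),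
      Fintype.card K = q ^ j ∧ Function.Injective ι := by
  let _ : Fintype (GaloisField q j) := Fintype.ofFinite _
  have h1 : Module.finrank (ZMod q) V ≤ Module.finrank (ZMod q) (GaloisField q j) := by
    rwa [GaloisField.finrank q hj0]
  obtain ⟨f, hf⟩ := finrank_le_iff_exists_linearMap.1 h1
  refine ⟨GaloisField q j, inferInstance, inferInstance, f.toAddMonoidHom, ?_, hf⟩
  rw [← Nat.card_eq_fintype_card, GaloisField.card q _ hj0]

theorem conjDepth_le_charP (R : Type) [CommRing R] [Module.Finite ℤ R] (p : ℕ) (hp : p.Prime)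
    [CharP R p] (S : Finset (Wreath R k)) :
    ∃ E : ℕ, ∀ n, 1 ≤ n → conjDepth S n ≤ (((E * n) ^ (E * n) : ℕ) : ℕ∞) := by
  have := Fact.mk hp
  let _ : Algebra (ZMod p) R := ZMod.algebra R p
  have hfin : Module.Finite (ZMod p) R := Module.Finite.of_restrictScalars_finite ℤ (ZMod p) R
  refine conjDepth_le_poly (ν := fun _ => 0) rfl (fun _ _ => le_rfl)
    (p ^ (Module.finrank (ZMod p) R + 1)) 1 ?_ S
  intro N hN
  obtain ⟨K, _, _, ι, hc, hι⟩ := exists_embed p R
    (Module.finrank (ZMod p) R + 1 + Nat.log p N) (by omega) (by omega)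
  refine ⟨K, inferInstance, inferInstance, ι, ?_, ?_, fun a b _ hab => hι hab⟩
  · rw [hc]
    exact (Nat.lt_pow_succ_log_self hp.one_lt N).trans_le
      (Nat.pow_le_pow_right hp.pos (by omega))
  · rw [hc, pow_one, pow_add]
    exact Nat.mul_le_mul_left _ (Nat.pow_log_le_self p (by omega))

theorem conjDepth_le_free (R : Type) [AddCommGroup R] [Module.Finite ℤ R] [Module.Free ℤ R]
    (S : Finset (Wreath R k)) :
    ∃ E : ℕ, ∀ n, 1 ≤ n → conjDepth S n ≤ (((E * n) ^ (E * n) : ℕ) : ℕ∞) := by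
  let b := Module.finBasis ℤ R
  refine conjDepth_le_poly (ν := fun a => ∑ i, (b.repr a i).natAbs) (by simp) ?_ 2
    (Module.finrank ℤ R + 1) ?_ S
  · intro a a'
    rw [← Finset.sum_add_distrib]
    refine Finset.sum_le_sum fun i _ => ?_
    rw [map_add, Finsupp.add_apply]
    exact Int.natAbs_add_le _ _
  intro N hN
  obtain ⟨q, hq, hq1, hq2⟩ := Nat.exists_prime_lt_and_le_two_mul N (by omega)
  have := Fact.mk hq
  obtain ⟨K, _, _, ι, hc, hι⟩ := exists_embed q (Fin (Module.finrank ℤ R) → ZMod q)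
    (Module.finrank ℤ R + 1) (by omega) (by simp)
  let red : R →+ (Fin (Module.finrank ℤ R) → ZMod q) :=
    { toFun := fun a i => ((b.repr a i : ℤ) : ZMod q)
      map_zero' := by funext i; simp
      map_add' := by intro a a'; funext i; simp }
  refine ⟨K, inferInstance, inferInstance, ι.comp red, ?_, ?_, fun a a' haa h => ?_⟩
  · rw [hc]
    exact hq1.trans_le (Nat.le_self_pow (by omega) q)
  · rw [hc]
    exact Nat.pow_le_pow_left hq2 _
  · have h1 : red a = red a' := hι h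
    apply b.repr.injective
    ext i
    have h2 : ((b.repr a i : ℤ) : ZMod q) = ((b.repr a' i : ℤ) : ZMod q) := congrFun h1 i
    rw [ZMod.intCast_eq_intCast_iff_dvd_sub] at h2
    have h4 : (b.repr a i).natAbs ≤ ∑ j, (b.repr a j).natAbs :=
      Finset.single_le_sum (f := fun j => (b.repr a j).natAbs) (fun _ _ => Nat.zero_le _)
        (Finset.mem_univ i)
    have h5 : (b.repr a' i).natAbs ≤ ∑ j, (b.repr a' j).natAbs :=
      Finset.single_le_sum (f := fun j => (b.repr a' j).natAbs) (fun _ _ => Nat.zero_le _)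
        (Finset.mem_univ i)
    have h3 := Int.eq_zero_of_dvd_of_natAbs_lt_natAbs h2 (by
      rw [Int.natAbs_natCast]
      omega)
    omega

theorem conjDepth_le_domain (R : Type) [CommRing R] [IsDomain R] [Module.Finite ℤ R]
    (S : Finset (Wreath R k)) :
    ∃ E : ℕ, ∀ n, 1 ≤ n → conjDepth S n ≤ (((E * n) ^ (E * n) : ℕ) : ℕ∞) := by
  obtain ⟨p, hp⟩ := CharP.exists R
  rcases CharP.char_is_prime_or_zero R p with h | rfl
  · exact conjDepth_le_charP R p h S
  · have : CharZero R := CharP.charP_to_charZero R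
    exact conjDepth_le_free R S

end Pool.Agent.Lib.MP_9ae5d9_al.U
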